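import Pool.Agent.Q170.ZP.Comb

/-!
Combinatorics of partial degenerations: relations between the coordinates at places at which only some of
the coordinates degenerate (helper file; the linear algebra is that of
`Pool.Agent.Q170.ZP.exists_even`).
-/

set_option autoImplicit false

namespace Pool.Agent.Q170.PD

open Pool.Agent.Q170.ZP (Smo Sq)

/-- The existence of a nonempty set of pairs with even fibres: linear algebra. -/
theorem even_of_card {L n : ℕ} {γ : Type} [DecidableEq γ]
    (Tt : Fin L → Finset (Fin n)) (cls : Fin n → γ)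
    (Fr : Finset γ) (hmaps : ∀ l, ∀ i ∈ Tt l, cls i ∈ Fr) (ρ : ℕ)
    (hρ : ρ + ((Finset.univ.filter fun i => cls i ∈ Fr).image cls).card =
      (Finset.univ.filter fun i => cls i ∈ Fr).card)
    (hlt : ρ + ∑ l, ((Tt l).image cls).card < ∑ l, (Tt l).card) :
    ∃ P : Finset (Fin L × Fin n), P.Nonempty ∧ (∀ x ∈ P, x.2 ∈ Tt x.1) ∧
      (∀ l c, Even (P.filter fun x => x.1 = l ∧ cls x.2 = c).card) ∧
      ∀ i, Even (P.filter fun x => x.2 = i).card := by
  classical
  let U : Finset (Fin n) := Finset.univ.filter fun i => cls i ∈ Fr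
  let C : Finset γ := U.image cls
  have hroot : ∀ c : C, ∃ i ∈ U, cls i = c := fun c => by
    obtain ⟨i, hi, h⟩ := Finset.mem_image.1 c.2
    exact ⟨i, hi, h⟩
  choose ρt hρU hρt using hroot
  have hρi : Function.Injective ρt := fun c c' h => Subtype.ext (by rw [← hρt c, ← hρt c', h])
  let Rt : Finset (Fin n) := Finset.univ.image ρt
  have hRtU : Rt ⊆ U := by
    intro i hi
    obtain ⟨c, -, rfl⟩ := Finset.mem_image.1 hi
    exact hρU c
  have hRt : Rt.card = C.card := by
    rw [Finset.card_image_of_injective _ hρi, Finset.card_univ, Fintype.card_coe]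
  let Non : Finset (Fin n) := U \ Rt
  have hNon : Non.card + C.card = U.card := by
    rw [← hRt]
    exact Finset.card_sdiff_add_card_eq_card hRtU
  have hNρ : Non.card = ρ := by
    have h1 : ρ + C.card = U.card := hρ
    omega
  let Idx : Finset (Fin L × Fin n) := Finset.univ.filter fun x => x.2 ∈ Tt x.1
  have hIdx : Idx.card = ∑ l : Fin L, (Tt l).card := by
    have h2 : Idx = (Finset.univ : Finset (Fin L)).biUnion fun l =>
        (Tt l).image fun i => (l, i) := by
      ext ⟨l, i⟩
      simp [Idx]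
    rw [h2, Finset.card_biUnion]
    · refine Finset.sum_congr rfl fun l _ => ?_
      exact Finset.card_image_of_injective _ fun i j h => (Prod.mk.inj h).2
    · intro l _ l' _ hll
      rw [Function.onFun, Finset.disjoint_left]
      rintro x hx hx'
      obtain ⟨i, -, rfl⟩ := Finset.mem_image.1 hx
      obtain ⟨j, -, h⟩ := Finset.mem_image.1 hx'
      exact hll (Prod.mk.inj h).1.symm
  let Q : Finset (Fin L × γ) := Idx.image fun x => (x.1, cls x.2)
  have hQ : Q.card = ∑ l : Fin L, ((Tt l).image cls).card := by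
    have h2 : Q = (Finset.univ : Finset (Fin L)).biUnion fun l =>
        ((Tt l).image cls).image fun c => (l, c) := by
      ext ⟨l, c⟩
      simp only [Q, Idx, Finset.mem_image, Finset.mem_filter, Finset.mem_univ, true_and,
        Finset.mem_biUnion, Prod.mk.injEq, Prod.exists]
      constructor
      · rintro ⟨l', i, h1, h2, h3⟩
        exact ⟨l', c, ⟨i, h1, h3⟩, h2, rfl⟩
      · rintro ⟨l', c', ⟨i, h1, h3⟩, h2, h4⟩
        exact ⟨l', i, h1, h2, h3.trans h4⟩
    rw [h2, Finset.card_biUnion]
    · refine Finset.sum_congr rfl fun l _ => ?_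
      exact Finset.card_image_of_injective _ fun i j h => (Prod.mk.inj h).2
    · intro l _ l' _ hll
      rw [Function.onFun, Finset.disjoint_left]
      rintro x hx hx'
      obtain ⟨i, -, rfl⟩ := Finset.mem_image.1 hx
      obtain ⟨j, -, h⟩ := Finset.mem_image.1 hx'
      exact hll (Prod.mk.inj h).1.symm
  have hdim : Non.card + Q.card < Idx.card := by
    rw [hNρ, hQ, hIdx]
    exact hlt
  -- the linear map
  let φ : (Idx → ZMod 2) →ₗ[ZMod 2] ((Non ⊕ Q) → ZMod 2) :=
    { toFun := fun f => Sum.elim (fun v => ∑ x : Idx, if x.1.2 = v then f x else 0)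
        (fun lc => ∑ x : Idx, if x.1.1 = lc.1.1 ∧ cls x.1.2 = lc.1.2 then f x else 0)
      map_add' := by
        intro f g
        funext z
        rcases z with v | lc
        · simp only [Sum.elim_inl, Pi.add_apply]
          rw [← Finset.sum_add_distrib]
          refine Finset.sum_congr rfl fun x _ => ?_
          split_ifs <;> simp
        · simp only [Sum.elim_inr, Pi.add_apply]
          rw [← Finset.sum_add_distrib]
          refine Finset.sum_congr rfl fun x _ => ?_
          split_ifs <;> simp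
      map_smul' := by
        intro a f
        funext z
        rcases z with v | lc
        · simp only [Sum.elim_inl, Pi.smul_apply, smul_eq_mul, RingHom.id_apply, Finset.mul_sum]
          refine Finset.sum_congr rfl fun x _ => ?_
          split_ifs <;> simp
        · simp only [Sum.elim_inr, Pi.smul_apply, smul_eq_mul, RingHom.id_apply, Finset.mul_sum]
          refine Finset.sum_congr rfl fun x _ => ?_
          split_ifs <;> simp }
  have hker : LinearMap.ker φ ≠ ⊥ := by
    refine LinearMap.ker_ne_bot_of_finrank_lt ?_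
    rw [Module.finrank_fintype_fun_eq_card, Module.finrank_fintype_fun_eq_card,
      Fintype.card_sum, Fintype.card_coe, Fintype.card_coe, Fintype.card_coe]
    exact hdim
  obtain ⟨f, hf, hf0⟩ := (Submodule.ne_bot_iff _).1 hker
  have hz2 : ∀ z : ZMod 2, z ≠ 0 → z = 1 := by decide
  let P : Finset (Fin L × Fin n) := (Finset.univ.filter fun x : Idx => f x ≠ 0).image Subtype.val
  have hPmem : ∀ x : Idx, (x : Fin L × Fin n) ∈ P ↔ f x ≠ 0 := by
    intro x
    constructor
    · intro h
      obtain ⟨y, hy, hyx⟩ := Finset.mem_image.1 h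
      have : y = x := Subtype.ext hyx
      subst this
      exact (Finset.mem_filter.1 hy).2
    · intro h
      exact Finset.mem_image_of_mem _ (Finset.mem_filter.2 ⟨Finset.mem_univ _, h⟩)
  have hPI : ∀ x ∈ P, x ∈ Idx := by
    intro x hx
    obtain ⟨y, -, rfl⟩ := Finset.mem_image.1 hx
    exact y.2
  -- parity of the fibres
  have hpar : ∀ p : Fin L × Fin n → Prop, [DecidablePred p] →
      (∑ x : Idx, if p x.1 then f x else 0) = 0 → Even (P.filter p).card := by
    intro p _ hp
    have h1 : (∑ x : Idx, if p x.1 then f x else 0) = ((P.filter p).card : ZMod 2) := by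
      have h2 : (P.filter p) = (Finset.univ.filter fun x : Idx => f x ≠ 0 ∧ p x.1).image
          Subtype.val := by
        ext x
        simp only [Finset.mem_filter, Finset.mem_image]
        constructor
        · rintro ⟨hx, hpx⟩
          refine ⟨⟨x, hPI x hx⟩, ⟨Finset.mem_univ _, ?_, hpx⟩, rfl⟩
          exact (hPmem ⟨x, hPI x hx⟩).1 hx
        · rintro ⟨y, ⟨-, hy1, hy2⟩, rfl⟩
          exact ⟨(hPmem y).2 hy1, hy2⟩
      rw [h2, Finset.card_image_of_injective _ Subtype.val_injective, Finset.card_filter,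
        Nat.cast_sum]
      refine Finset.sum_congr rfl fun x _ => ?_
      by_cases hfx : f x = 0
      · simp [hfx]
      · by_cases hpx : p x.1
        · rw [if_pos hpx, if_pos ⟨hfx, hpx⟩, hz2 _ hfx]
          simp
        · rw [if_neg hpx, if_neg fun h => hpx h.2]
          simp
    rw [h1] at hp
    exact (ZMod.natCast_eq_zero_iff_even).1 hp
  have hφ : ∀ z, φ f z = 0 := fun z => by rw [LinearMap.mem_ker.1 hf]; rfl
  have hlc : ∀ l c, Even (P.filter fun x => x.1 = l ∧ cls x.2 = c).card := by
    intro l c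
    by_cases hc : (l, c) ∈ Q
    · exact hpar _ (hφ (Sum.inr ⟨(l, c), hc⟩))
    · have h1 : (P.filter fun x => x.1 = l ∧ cls x.2 = c) = ∅ := by
        refine Finset.filter_eq_empty_iff.2 ?_
        rintro x hx ⟨h1, h2⟩
        apply hc
        rw [← h1, ← h2]
        exact Finset.mem_image_of_mem _ (hPI x hx)
      rw [h1]
      exact ⟨0, rfl⟩
  have hnon : ∀ i ∈ Non, Even (P.filter fun x => x.2 = i).card := by
    intro i hi
    exact hpar _ (hφ (Sum.inl ⟨i, hi⟩))
  refine ⟨P, ?_, fun x hx => (Finset.mem_filter.1 (hPI x hx)).2, hlc, ?_⟩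
  · by_contra hne
    rw [Finset.not_nonempty_iff_eq_empty] at hne
    apply hf0
    funext x
    by_contra h
    have h1 := (hPmem x).2 h
    rw [hne] at h1
    exact absurd h1 (Finset.notMem_empty _)
  · intro i
    by_cases hiN : i ∈ Non
    · exact hnon i hiN
    by_cases hiU : i ∈ U
    · have hiR : i ∈ Rt := by
        by_contra h
        exact hiN (Finset.mem_sdiff.2 ⟨hiU, h⟩)
      obtain ⟨c, -, hci⟩ := Finset.mem_image.1 hiR
      -- all points of the class
      have h1 : Even (P.filter fun x => cls x.2 = c).card := by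
        have h2 : (P.filter fun x => cls x.2 = c).card =
            ∑ l : Fin L, (P.filter fun x => x.1 = l ∧ cls x.2 = c).card := by
          rw [Finset.card_eq_sum_card_fiberwise (f := Prod.fst) (t := Finset.univ)
            (fun _ _ => Finset.mem_coe.2 (Finset.mem_univ _))]
          refine Finset.sum_congr rfl fun l _ => ?_
          rw [Finset.filter_filter]
          congr 1
          ext x
          rw [Finset.mem_filter, Finset.mem_filter]
          tauto
        rw [h2]
        exact Finset.even_sum _ fun l _ => hlc l c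
      have h3 : (P.filter fun x => cls x.2 = c).card = (P.filter fun x => x.2 = i).card +
          ∑ v ∈ Non.filter fun v => cls v = c, (P.filter fun x => x.2 = v).card := by
        have h4 : (P.filter fun x => cls x.2 = c) = (P.filter fun x => x.2 = i) ∪
            (Non.filter fun v => cls v = c).biUnion fun v => P.filter fun x => x.2 = v := by
          ext x
          rw [Finset.mem_union, Finset.mem_filter, Finset.mem_filter, Finset.mem_biUnion]
          constructor
          · rintro ⟨hx, hxc⟩
            by_cases hxi : x.2 = i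
            · exact Or.inl ⟨hx, hxi⟩
            · right
              refine ⟨x.2, Finset.mem_filter.2 ⟨Finset.mem_sdiff.2 ⟨Finset.mem_filter.2
                ⟨Finset.mem_univ _, hmaps x.1 x.2 (Finset.mem_filter.1 (hPI x hx)).2⟩, ?_⟩, hxc⟩,
                Finset.mem_filter.2 ⟨hx, rfl⟩⟩
              intro h
              obtain ⟨c', -, hc'⟩ := Finset.mem_image.1 h
              apply hxi
              have h5 : c' = c := Subtype.ext (by rw [← hρt c', hc', hxc])
              rw [← hc', h5, hci]
          · rintro (⟨hx, hxi⟩ | ⟨v, hv, hx⟩)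
            · refine ⟨hx, ?_⟩
              rw [hxi, ← hci]
              exact hρt c
            · obtain ⟨hx, hxv⟩ := Finset.mem_filter.1 hx
              rw [← hxv] at hv
              exact ⟨hx, (Finset.mem_filter.1 hv).2⟩
        rw [h4, Finset.card_union_of_disjoint, Finset.card_biUnion]
        · intro v _ v' _ hvv
          rw [Function.onFun, Finset.disjoint_left]
          intro x hx hx'
          exact hvv ((Finset.mem_filter.1 hx).2.symm.trans (Finset.mem_filter.1 hx').2)
        · rw [Finset.disjoint_left]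
          intro x hx hx'
          obtain ⟨v, hv, hxv⟩ := Finset.mem_biUnion.1 hx'
          have h5 : v = i := (Finset.mem_filter.1 hxv).2.symm.trans (Finset.mem_filter.1 hx).2
          rw [h5] at hv
          exact hiN (Finset.mem_filter.1 hv).1
      have h6 : Even (∑ v ∈ Non.filter fun v => cls v = c, (P.filter fun x => x.2 = v).card) :=
        Finset.even_sum _ fun v hv => hnon v (Finset.mem_filter.1 hv).1
      rw [h3] at h1
      exact (Nat.even_add.1 h1).2 h6
    · have h1 : (P.filter fun x => x.2 = i) = ∅ := by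
        refine Finset.filter_eq_empty_iff.2 ?_
        rintro x hx rfl
        exact hiU (Finset.mem_filter.2 ⟨Finset.mem_univ _,
          hmaps x.1 x.2 (Finset.mem_filter.1 (hPI x hx)).2⟩)
      rw [h1]
      exact ⟨0, rfl⟩

/-- The existence of a nonempty set of pairs with even fibres, for partial degenerations: at the
place `l` the coordinates in `S l` degenerate, and those in `E l` are bad. -/
theorem exists_evenP {L n m κ : ℕ} {γ : Type} [DecidableEq γ] (S E : Fin L → Finset (Fin n))
    (hκ : L * m < κ * (m + 1))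
    (h1 : ∀ i, κ ≤ (Finset.univ.filter fun l => i ∈ S l).card)
    (h2 : ∀ c : Finset (Fin n), 2 ≤ c.card → (κ + 1) * (c.card - 1) ≤
      ∑ l, min (c ∩ S l).card (c.card - 1))
    (hE : ∀ l, (E l).card ≤ m) (cls : Fin n → γ)
    (Fr : Finset γ) (hmaps : ∀ l, ∀ i ∈ S l \ E l, cls i ∈ Fr)
    (hiso : ∀ l, ∀ i ∈ S l \ E l, ∀ j, j ∉ S l → cls j = cls i → j ∈ E l)
    (hF : Fr.card + m < n) :
    ∃ P : Finset (Fin L × Fin n), P.Nonempty ∧ (∀ x ∈ P, x.2 ∈ S x.1 \ E x.1) ∧
      (∀ l c, Even (P.filter fun x => x.1 = l ∧ cls x.2 = c).card) ∧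
      ∀ i, Even (P.filter fun x => x.2 = i).card := by
  classical
  let U : Finset (Fin n) := Finset.univ.filter fun i => cls i ∈ Fr
  let C : Finset γ := U.image cls
  have hCF : C.card ≤ Fr.card := by
    refine Finset.card_le_card ?_
    intro c hc
    obtain ⟨i, hi, rfl⟩ := Finset.mem_image.1 hc
    exact (Finset.mem_filter.1 hi).2
  let F : γ → Finset (Fin n) := fun c => U.filter fun i => cls i = c
  have hF1 : ∀ c ∈ C, 1 ≤ (F c).card := by
    intro c hc
    obtain ⟨i, hi, hic⟩ := Finset.mem_image.1 hc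
    exact Finset.card_pos.2 ⟨i, Finset.mem_filter.2 ⟨hi, hic⟩⟩
  have hUF : ∑ c ∈ C, (F c).card = U.card :=
    (Finset.card_eq_sum_card_fiberwise fun i hi => Finset.mem_coe.2
      (Finset.mem_image_of_mem _ (Finset.mem_coe.1 hi))).symm
  have hρ : ∑ c ∈ C, ((F c).card - 1) + C.card = U.card := by
    rw [← hUF, Finset.card_eq_sum_ones, ← Finset.sum_add_distrib]
    refine Finset.sum_congr rfl fun c hc => ?_
    have := hF1 c hc
    omega
  have hUn : U.card + (Uᶜ).card = n := by
    have := Finset.card_add_card_compl U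
    rwa [Fintype.card_fin] at this
  -- the local inequality
  have hloc : ∀ l, ∀ c ∈ C, (if ((S l \ E l) ∩ F c).Nonempty then 1 else 0) +
      min ((F c) ∩ S l).card ((F c).card - 1) ≤
      ((S l \ E l) ∩ F c).card + (E l ∩ F c).card := by
    intro l c hc
    by_cases hne : ((S l \ E l) ∩ F c).Nonempty
    · rw [if_pos hne]
      obtain ⟨i, hi⟩ := hne
      obtain ⟨hi1, hi2⟩ := Finset.mem_inter.1 hi
      have hsub : F c ⊆ ((S l \ E l) ∩ F c) ∪ (E l ∩ F c) := by
        intro j hj
        rw [Finset.mem_union, Finset.mem_inter, Finset.mem_inter, Finset.mem_sdiff]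
        by_cases hjE : j ∈ E l
        · exact Or.inr ⟨hjE, hj⟩
        · by_cases hjS : j ∈ S l
          · exact Or.inl ⟨⟨hjS, hjE⟩, hj⟩
          · exfalso
            apply hjE
            refine hiso l i hi1 j hjS ?_
            rw [(Finset.mem_filter.1 hj).2, (Finset.mem_filter.1 hi2).2]
      have h3 := (Finset.card_le_card hsub).trans (Finset.card_union_le _ _)
      have h4 := hF1 c hc
      have h5 := min_le_right ((F c) ∩ S l).card ((F c).card - 1)
      omega
    · rw [if_neg hne, zero_add]
      have hsub : (F c) ∩ S l ⊆ E l ∩ F c := by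
        intro j hj
        obtain ⟨hj1, hj2⟩ := Finset.mem_inter.1 hj
        rw [Finset.mem_inter]
        refine ⟨?_, hj1⟩
        by_contra hjE
        exact hne ⟨j, Finset.mem_inter.2 ⟨Finset.mem_sdiff.2 ⟨hj2, hjE⟩, hj1⟩⟩
      have h3 := Finset.card_le_card hsub
      have h5 := min_le_left ((F c) ∩ S l).card ((F c).card - 1)
      omega
  have hTU : ∀ l, S l \ E l ⊆ U := fun l i hi =>
    Finset.mem_filter.2 ⟨Finset.mem_univ _, hmaps l i hi⟩
  have hTc : ∀ l, ∑ c ∈ C, ((S l \ E l) ∩ F c).card = (S l \ E l).card := by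
    intro l
    rw [Finset.card_eq_sum_card_fiberwise (f := cls) (t := C) fun i hi => Finset.mem_coe.2
      (Finset.mem_image_of_mem _ (hTU l (Finset.mem_coe.1 hi)))]
    refine Finset.sum_congr rfl fun c _ => ?_
    congr 1
    ext i
    simp only [F, Finset.mem_inter, Finset.mem_filter]
    constructor
    · rintro ⟨h3, h4, h5⟩
      exact ⟨h3, h5⟩
    · rintro ⟨h3, h5⟩
      exact ⟨h3, hTU l h3, h5⟩
  have hEc : ∀ l, ∑ c ∈ C, (E l ∩ F c).card = (E l ∩ U).card := by
    intro l
    rw [Finset.card_eq_sum_card_fiberwise (f := cls) (t := C) (s := E l ∩ U) fun i hi =>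
      Finset.mem_coe.2 (Finset.mem_image_of_mem _ (Finset.mem_inter.1 (Finset.mem_coe.1 hi)).2)]
    refine Finset.sum_congr rfl fun c _ => ?_
    congr 1
    ext i
    simp only [F, Finset.mem_inter, Finset.mem_filter]
    tauto
  have hIc : ∀ l, ∑ c ∈ C, (if ((S l \ E l) ∩ F c).Nonempty then 1 else 0) =
      ((S l \ E l).image cls).card := by
    intro l
    rw [← Finset.sum_filter, ← Finset.card_eq_sum_ones]
    congr 1
    ext c
    constructor
    · intro hc
      obtain ⟨_, i, hi⟩ := Finset.mem_filter.1 hc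
      obtain ⟨hi1, hi2⟩ := Finset.mem_inter.1 hi
      exact Finset.mem_image.2 ⟨i, hi1, (Finset.mem_filter.1 hi2).2⟩
    · intro hc
      obtain ⟨i, hi, hic⟩ := Finset.mem_image.1 hc
      refine Finset.mem_filter.2 ⟨hic ▸ Finset.mem_image_of_mem _ (hTU l hi), i,
        Finset.mem_inter.2 ⟨hi, ?_⟩⟩
      exact Finset.mem_filter.2 ⟨hTU l hi, hic⟩
  have hE1 : ∀ l, (E l ∩ U).card + (S l ∩ Uᶜ).card ≤ m := by
    intro l
    have h3 : (S l ∩ Uᶜ) ⊆ E l \ U := by
      intro i hi
      obtain ⟨hi1, hi2⟩ := Finset.mem_inter.1 hi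
      rw [Finset.mem_sdiff]
      refine ⟨?_, Finset.mem_compl.1 hi2⟩
      by_contra hiE
      exact Finset.mem_compl.1 hi2 (hTU l (Finset.mem_sdiff.2 ⟨hi1, hiE⟩))
    have h4 := Finset.card_le_card h3
    have h5 := Finset.card_inter_add_card_sdiff (E l) U
    have h6 := hE l
    omega
  have hl : ∀ l, ((S l \ E l).image cls).card + ∑ c ∈ C, min ((F c) ∩ S l).card ((F c).card - 1) +
      (S l ∩ Uᶜ).card ≤ (S l \ E l).card + m := by
    intro l
    have h3 := Finset.sum_le_sum (hloc l)
    rw [Finset.sum_add_distrib, Finset.sum_add_distrib, hTc, hEc, hIc] at h3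
    have h4 := hE1 l
    omega
  have hsum := Finset.sum_le_sum fun l (_ : l ∈ (Finset.univ : Finset (Fin L))) => hl l
  rw [Finset.sum_add_distrib, Finset.sum_add_distrib, Finset.sum_add_distrib, Finset.sum_const,
    Finset.card_univ, Fintype.card_fin, smul_eq_mul, Finset.sum_comm] at hsum
  have h3 : ∑ c ∈ C, (κ + 1) * ((F c).card - 1) ≤
      ∑ c ∈ C, ∑ l, min ((F c) ∩ S l).card ((F c).card - 1) := by
    refine Finset.sum_le_sum fun c hc => ?_
    by_cases h4 : 2 ≤ (F c).card
    · exact h2 _ h4
    · have h5 : (F c).card - 1 = 0 := by omega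
      rw [h5, mul_zero]
      exact Nat.zero_le _
  rw [← Finset.mul_sum] at h3
  have h4 : κ * (Uᶜ).card ≤ ∑ l, (S l ∩ Uᶜ).card := by
    have h5 : ∑ l, (S l ∩ Uᶜ).card = ∑ i ∈ Uᶜ, (Finset.univ.filter fun l => i ∈ S l).card := by
      simp only [Finset.card_eq_sum_ones, Finset.sum_filter]
      rw [Finset.sum_comm]
      refine Finset.sum_congr rfl fun l _ => ?_
      rw [← Finset.sum_filter]
      refine Finset.sum_congr ?_ fun _ _ => rfl
      ext i
      rw [Finset.mem_inter, Finset.mem_filter, and_comm]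
    rw [h5]
    calc κ * (Uᶜ).card = ∑ _i ∈ Uᶜ, κ := by rw [Finset.sum_const, smul_eq_mul, mul_comm]
      _ ≤ _ := Finset.sum_le_sum fun i _ => h1 i
  refine even_of_card (fun l => S l \ E l) cls Fr hmaps (∑ c ∈ C, ((F c).card - 1)) hρ ?_
  obtain ⟨ρ, hρ'⟩ : ∃ ρ, ρ = ∑ c ∈ C, ((F c).card - 1) := ⟨_, rfl⟩
  rw [← hρ'] at h3 hρ ⊢
  have h5 : m + 1 ≤ ρ + (Uᶜ).card := by omega
  have h6 : κ * (m + 1) ≤ κ * ρ + κ * (Uᶜ).card := by
    rw [← mul_add]
    exact Nat.mul_le_mul_left _ h5
  rw [add_mul, one_mul] at h3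
  have h7 : ∑ l, ((fun l => S l \ E l) l).card = ∑ l, (S l \ E l).card := rfl
  omega

/-- No product of distinct positive exponents is a square up to a number with prime factors at most
`T`. -/
def IndPos {L n : ℕ} (T : ℕ) (e : Fin L → Fin n → ℕ) : Prop :=
  ∀ P : Finset (Fin L × Fin n), P.Nonempty → (∀ x ∈ P, 0 < e x.1 x.2) →
    ¬ Sq T (∏ x ∈ P, e x.1 x.2)

/-- The degenerations are sufficiently spread over the coordinates. -/
def Spread {L n : ℕ} (m : ℕ) (e : Fin L → Fin n → ℕ) : Prop :=
  ∃ κ, L * m < κ * (m + 1) ∧ (∀ i, κ ≤ (Finset.univ.filter fun l => 0 < e l i).card) ∧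
    ∀ c : Finset (Fin n), 2 ≤ c.card → (κ + 1) * (c.card - 1) ≤
      ∑ l, min (c.filter fun i => 0 < e l i).card (c.card - 1)

/-- A simple sufficient condition. -/
theorem spread_of_few {L n m τ : ℕ} (e : Fin L → Fin n → ℕ) (hL : (m + 1) * (τ + 1) < L)
    (h : ∀ i, (Finset.univ.filter fun l => e l i = 0).card ≤ τ) : Spread m e := by
  classical
  have hs : ∀ i, L - τ ≤ (Finset.univ.filter fun l => 0 < e l i).card := by
    intro i
    have h1 := Finset.card_filter_add_card_filter_not (s := (Finset.univ : Finset (Fin L)))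
      (fun l => e l i = 0)
    rw [Finset.card_univ, Fintype.card_fin] at h1
    have h2 : (Finset.univ.filter fun l => ¬ e l i = 0) = Finset.univ.filter fun l => 0 < e l i := by
      ext l
      simp [Nat.pos_iff_ne_zero]
    rw [h2] at h1
    have := h i
    omega
  obtain ⟨d, hd⟩ : ∃ d, L = (m + 1) * (τ + 1) + 1 + d := ⟨L - ((m + 1) * (τ + 1) + 1), by omega⟩
  have hτL : τ + 1 + (m * (τ + 1) + d + 1) = L := by
    rw [hd]
    ring
  refine ⟨m * (τ + 1) + d + 1, ?_, fun i => ?_, fun c hc => ?_⟩
  · rw [← hτL]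
    ring_nf
    nlinarith [Nat.zero_le (m * τ), Nat.zero_le (m * d)]
  · have := hs i
    omega
  · have hmin : ∀ l, (c.filter fun i => 0 < e l i).card ≤
        min (c.filter fun i => 0 < e l i).card (c.card - 1) +
          (if ∀ i ∈ c, 0 < e l i then 1 else 0) := by
      intro l
      by_cases hall : ∀ i ∈ c, 0 < e l i
      · rw [if_pos hall]
        have h1 : (c.filter fun i => 0 < e l i).card ≤ c.card := Finset.card_filter_le _ _
        rcases le_total (c.filter fun i => 0 < e l i).card (c.card - 1) with h2 | h2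
        · rw [min_eq_left h2]
          omega
        · rw [min_eq_right h2]
          omega
      · rw [if_neg hall, add_zero, min_eq_left]
        push Not at hall
        obtain ⟨i, hi, hi0⟩ := hall
        have h1 : (c.filter fun i => 0 < e l i) ⊆ c.erase i := by
          intro j hj
          obtain ⟨hj1, hj2⟩ := Finset.mem_filter.1 hj
          refine Finset.mem_erase.2 ⟨?_, hj1⟩
          rintro rfl
          omega
        have h2 := Finset.card_le_card h1
        rwa [Finset.card_erase_of_mem hi] at h2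
    have hsum := Finset.sum_le_sum fun l (_ : l ∈ (Finset.univ : Finset (Fin L))) => hmin l
    rw [Finset.sum_add_distrib] at hsum
    have hswap : ∑ l, (c.filter fun i => 0 < e l i).card =
        ∑ i ∈ c, (Finset.univ.filter fun l => 0 < e l i).card := by
      simp only [Finset.card_eq_sum_ones, Finset.sum_filter]
      rw [Finset.sum_comm]
    have hall : ∑ l : Fin L, (if ∀ i ∈ c, 0 < e l i then 1 else 0) =
        (Finset.univ.filter fun l => ∀ i ∈ c, 0 < e l i).card := by
      rw [Finset.card_eq_sum_ones, Finset.sum_filter]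
    obtain ⟨i₀, hi₀⟩ : c.Nonempty := Finset.card_pos.1 (by omega)
    have h3 : (Finset.univ.filter fun l => ∀ i ∈ c, 0 < e l i).card ≤
        (Finset.univ.filter fun l => 0 < e l i₀).card := by
      refine Finset.card_le_card fun l hl => ?_
      rw [Finset.mem_filter] at hl ⊢
      exact ⟨hl.1, hl.2 i₀ hi₀⟩
    have h4 : ∑ i ∈ c, (Finset.univ.filter fun l => 0 < e l i).card =
        (Finset.univ.filter fun l => 0 < e l i₀).card +
        ∑ i ∈ c.erase i₀, (Finset.univ.filter fun l => 0 < e l i).card :=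
      (Finset.add_sum_erase _ _ hi₀).symm
    have h5 : (L - τ) * (c.card - 1) ≤
        ∑ i ∈ c.erase i₀, (Finset.univ.filter fun l => 0 < e l i).card := by
      calc (L - τ) * (c.card - 1) = ∑ _i ∈ c.erase i₀, (L - τ) := by
            rw [Finset.sum_const, Finset.card_erase_of_mem hi₀, smul_eq_mul, mul_comm]
        _ ≤ _ := Finset.sum_le_sum fun i _ => hs i
    have h6 : m * (τ + 1) + d + 1 + 1 = L - τ := by omega
    rw [h6]
    rw [hswap, hall, h4] at hsum
    omega

/-- The contradiction from the relations at the places. -/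
theorem no_relP {L n m T : ℕ} {γ : Type} [DecidableEq γ]
    (e : Fin L → Fin n → ℕ) (he : IndPos T e) (hsp : Spread m e) (δ : Fin n → ℕ)
    (hδ : ∀ i, 0 < δ i) (E : Fin L → Finset (Fin n)) (hE : ∀ l, (E l).card ≤ m) (cls : Fin n → γ)
    (Fr : Finset γ) (hmaps : ∀ l i, i ∉ E l → 0 < e l i → cls i ∈ Fr) (hF : Fr.card + m < n)
    (hiso : ∀ l i j, i ∉ E l → 0 < e l i → j ∉ E l → e l j = 0 → cls j ≠ cls i)
    (hrel : ∀ l i j, i ∉ E l → j ∉ E l → 0 < e l i → 0 < e l j → i ≠ j → cls i = cls j →
      Sq T (δ i * δ j * (e l i * e l j))) : False := by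
  classical
  obtain ⟨κ, hκ, h1, h2⟩ := hsp
  let S : Fin L → Finset (Fin n) := fun l => Finset.univ.filter fun i => 0 < e l i
  have hS : ∀ l i, i ∈ S l ↔ 0 < e l i := fun l i => by simp [S]
  have hSE : ∀ l i, i ∈ S l \ E l ↔ 0 < e l i ∧ i ∉ E l := fun l i => by
    rw [Finset.mem_sdiff, hS]
  obtain ⟨P, hP0, hPT, hlc, hv⟩ := exists_evenP S E hκ (fun i => by simpa only [hS] using h1 i)
    (fun c hc => by
      have h3 := h2 c hc
      have h4 : ∀ l, (c ∩ S l) = c.filter fun i => 0 < e l i := by
        intro l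
        ext i
        simp only [S, Finset.mem_inter, Finset.mem_filter, Finset.mem_univ, true_and]
      simpa only [h4] using h3) hE cls Fr
    (fun l i hi => hmaps l i ((hSE l i).1 hi).2 ((hSE l i).1 hi).1)
    (fun l i hi j hj hji => by
      by_contra hjE
      rw [hS] at hj
      exact hiso l i j ((hSE l i).1 hi).2 ((hSE l i).1 hi).1 hjE (by omega) hji) hF
  have hPe : ∀ x ∈ P, 0 < e x.1 x.2 := fun x hx => ((hSE _ _).1 (hPT x hx)).1
  have hPE : ∀ x ∈ P, x.2 ∉ E x.1 := fun x hx => ((hSE _ _).1 (hPT x hx)).2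
  apply he P hP0 hPe
  let w : Fin L × Fin n → ℕ := fun x => δ x.2 * e x.1 x.2
  have hw : ∀ x ∈ P, 0 < w x := fun x hx => Nat.mul_pos (hδ _) (hPe x hx)
  have h1 : Sq T (∏ x ∈ P, w x) := by
    rw [← Finset.prod_fiberwise_of_maps_to (s := P)
      (t := P.image fun x => (x.1, cls x.2)) (g := fun x => (x.1, cls x.2))
      (fun x hx => Finset.mem_image_of_mem _ hx)]
    refine Sq.prod _ _ fun lc _ => ?_
    refine Sq.even _ w (fun x hx => hw x (Finset.mem_filter.1 hx).1) ?_ ?_
    · have h2 : (P.filter fun x => (x.1, cls x.2) = lc) =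
          (P.filter fun x => x.1 = lc.1 ∧ cls x.2 = lc.2) := by
        ext x
        rw [Finset.mem_filter, Finset.mem_filter, Prod.ext_iff]
      rw [h2]
      exact hlc _ _
    · rintro ⟨l, i⟩ hx ⟨l', j⟩ hy
      obtain ⟨hx1, hx2⟩ := Finset.mem_filter.1 hx
      obtain ⟨hy1, hy2⟩ := Finset.mem_filter.1 hy
      rw [← hy2, Prod.ext_iff] at hx2
      obtain ⟨h3, h4⟩ := hx2
      simp only at h3 h4
      subst h3
      by_cases hij : i = j
      · subst hij
        exact Sq.sq T _
      · have h5 := hrel l i j (hPE _ hx1) (hPE _ hy1) (hPe _ hx1) (hPe _ hy1) hij h4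
        have h6 : w (l, i) * w (l, j) = δ i * δ j * (e l i * e l j) := by
          simp only [w]
          ring
        rw [h6]
        exact h5
  have h2 : ∏ x ∈ P, w x = (∏ x ∈ P, δ x.2) * ∏ x ∈ P, e x.1 x.2 := Finset.prod_mul_distrib
  rw [h2] at h1
  refine Sq.cancel (Finset.prod_pos fun x _ => hδ _) ?_ h1
  rw [← Finset.prod_fiberwise_of_maps_to (s := P) (t := Finset.univ) (g := fun x => x.2)
    (fun x _ => Finset.mem_univ _)]
  refine Sq.prod _ _ fun i _ => ?_
  refine Sq.even _ _ (fun x _ => hδ _) (hv i) ?_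
  intro x hx y hy
  rw [(Finset.mem_filter.1 hx).2, (Finset.mem_filter.1 hy).2]
  exact Sq.sq T _

end Pool.Agent.Q170.PD
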