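import Pool.Agent.Q170.ZP.Core
import Pool.Agent.Q170.PD.Comb

/-!
Points of special subvarieties of `Y(1)^n` which are near to the boundary in some of the coordinates at
several places: the core and the local criterion (helper file; adapted from
`Pool.Agent.Q170.ZP.coreW` and `criterionW`).
-/

set_option autoImplicit false

open Function UpperHalfPlane H294ZP MvPolynomial Pool.Agent.W466.ZC

namespace Pool.Agent.Q170.PD

open Pool.Agent.TH526.ZL
open Pool.Agent.Q170.ZP (Smo Sq)

/-- The core. -/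
theorem coreP {Λ : Type} [CommRing Λ] [IsDomain Λ] [Algebra Λ ℂ] {n m L : ℕ}
    (e : Fin L → Fin n → ℕ) (he : IndPos 1 e) (hsp : Spread m e)
    {r : ℕ} (cls : Fin n → Option (Fin r)) (δ : Fin n → ℕ) (x : Fin n → ℂ)
    (hδ : ∀ i, 0 < δ i)
    (hconst : ∀ i, cls i = none → IsAlgebraic Λ (x i))
    (hrel : ∀ i j l, cls i = some l → cls j = some l →
        IsIntegral (Algebra.adjoin ℤ {x i}) (x j) ∧
        Polynomial.eval₂ (Polynomial.aeval (x i) : Polynomial ℂ →ₐ[ℂ] ℂ).toRingHom (x j)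
          (W282.ZP.Psi (δ i * δ j)) = 0)
    (S : Finset (Fin n)) (hS : AlgebraicIndependent Λ (fun i : S => x i))
    (V : Fin L → ValuationSubring ℂ) (g : ∀ l, (V l).ValueGroup)
    (hg : ∀ l, g l < 1)
    (hVc : ∀ l i, cls i = none → (V l).valuation (x i) ≤ 1)
    (hVx : ∀ l (i : S), x i ∈ V l)
    (hgood : ∀ l, ∃ E : Finset (Fin n), E.card ≤ m ∧ ∀ i, i ∉ E →
      (0 < e l i → (V l).valuation (x i) * g l ^ e l i = 1) ∧
      (e l i = 0 → (V l).valuation (x i) ≤ 1)) :
    S.card + n ≤ r + m := by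
  classical
  have hQ : ∀ i j, 0 < δ i * δ j := fun i j => Nat.mul_pos (hδ i) (hδ j)
  have hV1 : ∀ l i j k, cls i = some k → cls j = some k → (V l).valuation (x i) ≤ 1 →
      (V l).valuation (x j) ≤ 1 := by
    intro l i j k hi hj h1
    exact ((W282.ZP.Psi_spec (hQ i j)).2.2 ℂ (V l) (x i) (x j) (hrel i j k hi hj).2).1 h1
  have hSsome : ∀ t : S, ∃ k, cls t = some k := by
    intro t
    cases hc : cls t with
    | none => exact ((hS.transcendental t) (hconst t hc)).elim
    | some k => exact ⟨k, rfl⟩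
  choose cl hcl using hSsome
  have hclinj : Function.Injective cl := by
    intro t t' htt
    by_contra hne
    exact not_algInd' hS hne (hrel t t' (cl t) (hcl t) (by rw [htt]; exact hcl t')).1
  by_contra hcon
  push Not at hcon
  let Fr : Finset (Option (Fin r)) := (Finset.univ.filter fun k : Fin r =>
    k ∉ Finset.univ.image cl).image some
  have hFr : Fr.card + S.card = r := by
    have h1 : Fr.card = (Finset.univ.filter fun k : Fin r =>
        k ∉ Finset.univ.image cl).card :=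
      Finset.card_image_of_injective _ (Option.some_injective _)
    have h2 : (Finset.univ.filter fun k : Fin r => k ∈ Finset.univ.image cl).card = S.card := by
      have h3 : (Finset.univ.filter fun k : Fin r => k ∈ Finset.univ.image cl) =
          Finset.univ.image cl := by
        ext k; simp
      rw [h3, Finset.card_image_of_injective _ hclinj, Finset.card_univ, Fintype.card_coe]
    have := Finset.card_filter_add_card_filter_not (s := (Finset.univ : Finset (Fin r)))
      (fun k => k ∈ Finset.univ.image cl)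
    rw [Finset.card_univ, Fintype.card_fin] at this
    rw [h1]
    omega
  choose E hE hEg using hgood
  have hgt : ∀ l i, i ∉ E l → 0 < e l i → 1 < (V l).valuation (x i) := by
    intro l i hi h0
    by_contra hle
    push Not at hle
    have h1 : (V l).valuation (x i) * g l ^ e l i < 1 :=
      (mul_le_of_le_one_left' hle).trans_lt (pow_lt_one₀ zero_le (hg l) h0.ne')
    rw [(hEg l i hi).1 h0] at h1
    exact lt_irrefl _ h1
  have hmaps : ∀ l i, i ∉ E l → 0 < e l i → cls i ∈ Fr := by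
    intro l i hi h0
    have h1 := hgt l i hi h0
    cases hc : cls i with
    | none => exact absurd h1 (not_lt.2 (hVc l i hc))
    | some k =>
      refine Finset.mem_image_of_mem _ (Finset.mem_filter.2 ⟨Finset.mem_univ _, ?_⟩)
      intro hk
      obtain ⟨t, -, ht⟩ := Finset.mem_image.1 hk
      have h3 := hV1 l t i k (ht ▸ hcl t) hc
        ((ValuationSubring.valuation_le_one_iff _ _).2 (hVx l t))
      exact absurd h1 (not_lt.2 h3)
  refine no_relP e he hsp δ hδ E hE cls Fr hmaps (by omega) ?_ ?_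
  · intro l i j hi h0 hj hj0 hij
    obtain ⟨k, -, hk⟩ := Finset.mem_image.1 (hmaps l i hi h0)
    have h1 := hV1 l j i k (hij.trans hk.symm) hk.symm ((hEg l j hj).2 hj0)
    exact absurd (hgt l i hi h0) (not_lt.2 h1)
  · intro l i j hi hj hi0 hj0 _ hcls
    obtain ⟨k, -, hk⟩ := Finset.mem_image.1 (hmaps l i hi hi0)
    have h1 := sq_tie' (a := 1) (b := 1) (a' := 1) (b' := 1) (hQ i j)
      (hrel i j k hk.symm (hcls ▸ hk.symm)).2 (V l) (hg l)
        ((hEg l i hi).1 hi0) ((hEg l j hj).1 hj0) (hgt l i hi hi0) rfl rfl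
    exact ⟨1, Smo.one 1, by simpa using h1⟩

/-- Good reduction (adapted from `Pool.Agent.TH526.ZL.good_place`). -/
theorem good_placeP {Λ : Type} [CommRing Λ] [Algebra Λ ℂ] {𝔭 : Ideal Λ} {κ I₀ : Type*}
    {N m : ℕ} (G : κ → MvPolynomial (Fin (N + 1)) Λ)
    (hG : ∀ i, ∃ e, (G i).IsHomogeneous e) (W : I₀ → MvPolynomial (Fin (N + 1)) Λ)
    (hpos : ∀ (F : Type) [Field F] (φ : Λ →+* F), RingHom.ker φ = 𝔭 → ∀ I : Finset I₀,
      I.card = m + 1 → ∀ y : Fin (N + 1) → F, y ≠ 0 → (∀ k, eval₂ φ y (G k) = 0) →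
      ∃ i ∈ I, eval₂ φ y (W i) ≠ 0)
    (V : ValuationSubring ℂ) (hV : ∀ a : Λ, V.valuation (algebraMap Λ ℂ a) ≤ 1)
    (hV' : ∀ a : Λ, V.valuation (algebraMap Λ ℂ a) < 1 ↔ a ∈ 𝔭)
    (y : Fin (N + 1) → ℂ) (hy0 : y ≠ 0) (hyG : ∀ i, aeval y (G i) = 0) :
    ∃ c : ℂ, c ≠ 0 ∧ (∀ P : MvPolynomial (Fin (N + 1)) Λ, aeval (c • y) P ∈ V) ∧
      ∀ I : Finset I₀, I.card = m + 1 → ∃ i ∈ I, V.valuation (aeval (c • y) (W i)) = 1 := by
  classical
  set v := V.valuation with hv
  have hne : (Finset.univ : Finset (Fin (N + 1))).Nonempty := Finset.univ_nonempty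
  obtain ⟨j0, -, hj0⟩ := Finset.exists_max_image Finset.univ (fun j => v (y j)) hne
  have hyj0 : y j0 ≠ 0 := by
    intro h
    apply hy0
    funext j
    have h1 := hj0 j (Finset.mem_univ j)
    simp only [h, map_zero, le_zero_iff] at h1
    exact (map_eq_zero v).1 h1
  have hzV : ∀ j, ((y j0)⁻¹ • y) j ∈ V := by
    intro j
    rw [← ValuationSubring.valuation_le_one_iff, Pi.smul_apply, smul_eq_mul, map_mul, map_inv₀]
    have h1 := hj0 j (Finset.mem_univ j)
    have h2 : v (y j0) ≠ 0 := (map_ne_zero v).2 hyj0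
    calc (v (y j0))⁻¹ * v (y j) ≤ (v (y j0))⁻¹ * v (y j0) := mul_le_mul_right h1 _
      _ = 1 := inv_mul_cancel₀ h2
  let z : Fin (N + 1) → V := fun j => ⟨((y j0)⁻¹ • y) j, hzV j⟩
  have hz : (fun j => (z j : ℂ)) = (y j0)⁻¹ • y := rfl
  have hzG : ∀ i, aeval ((y j0)⁻¹ • y) (G i) = 0 := by
    intro i
    obtain ⟨e, he⟩ := hG i
    have h1 := eval_smul (he.map (algebraMap Λ ℂ)) (y j0)⁻¹ y
    rw [eval_map, eval_map, ← aeval_def, ← aeval_def] at h1
    rw [h1, hyG i, mul_zero]
  let φ : Λ →+* IsLocalRing.ResidueField V := (IsLocalRing.residue V).comp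
        ((algebraMap Λ ℂ).codRestrict V.toSubring
          (fun a => (ValuationSubring.valuation_le_one_iff _ _).1 (hV a)))
  have hφ : RingHom.ker φ = 𝔭 := by
    ext a
    rw [← hV' a, RingHom.mem_ker]
    show IsLocalRing.residue V ⟨algebraMap Λ ℂ a, _⟩ = 0 ↔ _
    rw [IsLocalRing.residue_eq_zero_iff, ValuationSubring.valuation_lt_one_iff]
  have hred : ∀ P : MvPolynomial (Fin (N + 1)) Λ, ∃ w : V,
      (w : ℂ) = aeval ((y j0)⁻¹ • y) P ∧
      IsLocalRing.residue V w = eval₂ φ (fun j => IsLocalRing.residue V (z j)) P := by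
    intro P
    have h1 := aeval_red V hV P z
    rw [hz] at h1
    exact h1
  refine ⟨(y j0)⁻¹, inv_ne_zero hyj0, fun P => ?_, ?_⟩
  · obtain ⟨w, hw, -⟩ := hred P
    rw [← hw]
    exact w.2
  · intro I hI
    have hz0 : (fun j => IsLocalRing.residue V (z j)) ≠ 0 := by
      intro h
      have h1 := congrFun h j0
      have h2 : z j0 = 1 := by
        apply Subtype.ext
        show (y j0)⁻¹ • y j0 = 1
        rw [smul_eq_mul, inv_mul_cancel₀ hyj0]
      rw [h2, map_one, Pi.zero_apply] at h1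
      exact one_ne_zero h1
    obtain ⟨i, hi, h1⟩ := hpos (IsLocalRing.ResidueField V) φ hφ I hI _ hz0 (by
      intro k
      obtain ⟨w, hw, hw'⟩ := hred (G k)
      rw [← hw']
      have h2 : w = 0 := Subtype.ext (by rw [hw, hzG k]; rfl)
      rw [h2, map_zero])
    refine ⟨i, hi, ?_⟩
    obtain ⟨w, hw, hw'⟩ := hred (W i)
    rw [← hw'] at h1
    have h2 : IsUnit w := by
      by_contra h3
      apply h1
      rw [IsLocalRing.residue_eq_zero_iff]
      exact h3
    rw [← hw]
    exact (ValuationSubring.valuation_eq_one_iff V w).1 h2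

/-- From the values of the forms to the orders of the coordinates. -/
theorem bad_set (V : ValuationSubring ℂ) {n m : ℕ} (e : Fin n → ℕ) (a b c x : Fin n → ℂ)
    (g : V.ValueGroup) (ha : ∀ i, V.valuation (a i) ≤ 1) (hb : ∀ i, V.valuation (b i) ≤ 1)
    (hI : ∀ I : Finset (Fin n), I.card = m + 1 → ∃ i ∈ I,
      V.valuation (if 0 < e i then a i * b i else b i) = 1)
    (hc : ∀ i, V.valuation (c i) = g ^ e i) (hx : ∀ i, c i * b i * x i = a i) :
    ∃ E : Finset (Fin n), E.card ≤ m ∧ ∀ i, i ∉ E →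
      (0 < e i → V.valuation (x i) * g ^ e i = 1) ∧
      (e i = 0 → V.valuation (x i) ≤ 1) := by
  classical
  refine ⟨Finset.univ.filter fun i =>
      ¬ V.valuation (if 0 < e i then a i * b i else b i) = 1, ?_, ?_⟩
  · by_contra h
    push Not at h
    obtain ⟨I, hIE, hIc⟩ := Finset.exists_subset_card_eq (Nat.succ_le_of_lt h)
    obtain ⟨i, hi, h1⟩ := hI I hIc
    exact (Finset.mem_filter.1 (hIE hi)).2 h1
  · intro i hi
    rw [Finset.mem_filter] at hi
    push Not at hi
    have h1 := hi (Finset.mem_univ i)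
    have h4 := congrArg V.valuation (hx i)
    rw [map_mul, map_mul, hc] at h4
    refine ⟨fun h0 => ?_, fun h0 => ?_⟩
    · rw [if_pos h0, map_mul] at h1
      have hA2 : V.valuation (a i) = 1 := by
        refine le_antisymm (ha i) ?_
        by_contra h
        push Not at h
        have h2 := (mul_le_of_le_one_right' (hb i)).trans_lt h
        rw [h1] at h2
        exact lt_irrefl _ h2
      rw [hA2, one_mul] at h1
      rw [h1, mul_one, hA2] at h4
      rw [mul_comm]
      exact h4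
    · rw [if_neg (by omega)] at h1
      rw [h0, pow_zero, one_mul, h1, one_mul] at h4
      rw [h4]
      exact ha i

/-- The local criterion, for points: images of projective sets in `Y(1)^n` which at the places `𝔭 l` are
near to the boundary in the coordinates with `0 < e l i`. -/
theorem criterionP {Λ : Type} [CommRing Λ] [IsDomain Λ] [Algebra Λ ℂ] {κ : Type*}
    {N n m L : ℕ} (G : κ → MvPolynomial (Fin (N + 1)) Λ)
    (hG : ∀ i, ∃ e, (G i).IsHomogeneous e) (A B : Fin n → MvPolynomial (Fin (N + 1)) Λ)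
    (d : Fin n → ℕ) (hA : ∀ i, (A i).IsHomogeneous (d i)) (hB : ∀ i, (B i).IsHomogeneous (d i))
    (c : Fin n → Λ) (𝔭 : Fin L → Ideal Λ) (h𝔭 : ∀ l, (𝔭 l).IsPrime)
    (e : Fin L → Fin n → ℕ) (he : IndPos 1 e) (hsp : Spread m e)
    (hpos : ∀ l (F : Type) [Field F] (φ : Λ →+* F), RingHom.ker φ = 𝔭 l → ∀ I : Finset (Fin n),
      I.card = m + 1 → ∀ y : Fin (N + 1) → F, y ≠ 0 → (∀ k, eval₂ φ y (G k) = 0) →
      ∃ i ∈ I, eval₂ φ y (B i) ≠ 0 ∧ (0 < e l i → eval₂ φ y (A i) ≠ 0))
    (π : Fin L → Λ) (hπ : ∀ l, π l ∈ 𝔭 l)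
    (hc : ∀ l i, ∃ a b : Λ, a ∉ 𝔭 l ∧ b ∉ 𝔭 l ∧ a * c i = b * π l ^ e l i)
    {r : ℕ} (cls : Fin n → Option (Fin r)) (δ : Fin n → ℕ) (x : Fin n → ℂ)
    (hδ : ∀ i, 0 < δ i)
    (hconst : ∀ i, cls i = none → IsIntegral Λ (x i))
    (hrel : ∀ i j l, cls i = some l → cls j = some l →
        IsIntegral (Algebra.adjoin ℤ {x i}) (x j) ∧
        Polynomial.eval₂ (Polynomial.aeval (x i) : Polynomial ℂ →ₐ[ℂ] ℂ).toRingHom (x j)
          (W282.ZP.Psi (δ i * δ j)) = 0)
    (y : Fin (N + 1) → ℂ) (hy0 : y ≠ 0) (hyG : ∀ i, aeval y (G i) = 0)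
    (hxy : ∀ i, algebraMap Λ ℂ (c i) * aeval y (B i) * x i = aeval y (A i))
    (S : Finset (Fin n)) (hS : AlgebraicIndependent Λ (fun i : S => x i)) :
    S.card + n ≤ r + m := by
  classical
  choose V hV1 hV2 hVx using fun l => exists_place (𝔭 l) _ hS
  have hunit : ∀ l (a : Λ), a ∉ 𝔭 l → (V l).valuation (algebraMap Λ ℂ a) = 1 := by
    intro l a ha
    refine le_antisymm (hV1 l a) ?_
    by_contra h
    push Not at h
    exact ha ((hV2 l a).1 h)
  refine coreP (m := m) e he hsp cls δ x hδ (fun i hi => (hconst i hi).isAlgebraic) hrel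
    S hS V
    (fun l => (V l).valuation (algebraMap Λ ℂ (π l))) (fun l => (hV2 l (π l)).2 (hπ l))
    (fun l i hi => mem_of_int (V l) (hV1 l) (hconst i hi)) hVx ?_
  intro l
  obtain ⟨t, ht0, hAB, hI⟩ := good_placeP G hG
    (fun i => if 0 < e l i then A i * B i else B i) (fun F _ φ hk I hI' y' hy' hG' => by
      obtain ⟨i, hi, h1, h2⟩ := hpos l F φ hk I hI' y' hy' hG'
      refine ⟨i, hi, ?_⟩
      by_cases h0 : 0 < e l i
      · rw [if_pos h0, eval₂_mul]
        exact mul_ne_zero (h2 h0) h1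
      · rw [if_neg h0]
        exact h1) (V l) (hV1 l) (hV2 l) y hy0 hyG
  have hsm : ∀ (P : MvPolynomial (Fin (N + 1)) Λ) (f : ℕ), P.IsHomogeneous f →
      aeval (t • y) P = t ^ f * aeval y P := by
    intro P f hP
    have h1 := eval_smul (hP.map (algebraMap Λ ℂ)) t y
    rwa [eval_map, eval_map, ← aeval_def, ← aeval_def] at h1
  refine bad_set (V l) (e l) (fun i => aeval (t • y) (A i)) (fun i => aeval (t • y) (B i))
    (fun i => algebraMap Λ ℂ (c i)) x _
    (fun i => (ValuationSubring.valuation_le_one_iff _ _).2 (hAB _))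
    (fun i => (ValuationSubring.valuation_le_one_iff _ _).2 (hAB _)) (fun I hIc => ?_)
    (fun i => ?_) (fun i => ?_)
  · obtain ⟨i, hi, h1⟩ := hI I hIc
    refine ⟨i, hi, ?_⟩
    by_cases h0 : 0 < e l i
    · rw [if_pos h0, map_mul] at h1
      rw [if_pos h0]
      exact h1
    · rw [if_neg h0] at h1 ⊢
      exact h1
  · obtain ⟨a, b, ha, hb, hab⟩ := hc l i
    have h5 := congrArg (fun z => (V l).valuation (algebraMap Λ ℂ z)) hab
    simp only [map_mul, map_pow, hunit l a ha, hunit l b hb, one_mul] at h5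
    exact h5
  · show algebraMap Λ ℂ (c i) * aeval (t • y) (B i) * x i = aeval (t • y) (A i)
    rw [hsm _ _ (hA i), hsm _ _ (hB i), ← hxy i]
    ring

end Pool.Agent.Q170.PD
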