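import Pool.Agent.Q170.PD.Core
import Pool.Agent.Q170.BX.Multi

/-!
Families with several parameters of subsets of `Y(1)^n` some of whose coordinates degenerate along
hypersurfaces: the members with integral parameters (helper file; adapted from
`Pool.Agent.Q170.ZP.Multi`).
-/

set_option autoImplicit false

namespace Pool.Agent.Q170.PD

open H294ZP UpperHalfPlane MvPolynomial Pool.Agent.W282.ZP Pool.Agent.Y152.BD Pool.Agent.TH526.ZL
open Pool.Agent.W466.ZC (aeval_mem)
open Pool.Agent.Y152.RP.Fam (SpecialVariety SpecialVariety.locus NoAtypical rel_of_locus)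
open Pool.Agent.Q170.ZP.Multi (evM evM_apply evM_int ev_smul flat aeval_flat ipol aeval_ipol certP
  v_int_one v_int_lt aeval_int)
open Pool.Agent.Q170.BX (unitP noAtypical_pt)

section near

variable {K : Type} [Field K] [Algebra K ℂ] {k : Type} [Field k] [Algebra k ℂ] [Algebra K k]
  [IsScalarTower K k ℂ] {r : ℕ}

/-- Good valuation rings for the members of a family which are near to the degenerate ones. -/
theorem goodW [IsAlgClosed k] {τ : Type*} [Fintype τ] {κ : Type} [Finite κ]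
    {ι ι' : Type} [Fintype ι] [DecidableEq ι] [Finite ι'] {m : ℕ}
    (G : κ → MvPolynomial τ (MvPolynomial (Fin r) K))
    (hhom : ∀ i, ∃ e, (G i).IsHomogeneous e) (F : ι → MvPolynomial τ (MvPolynomial (Fin r) K))
    (F' : ι' → MvPolynomial τ (MvPolynomial (Fin r) K))
    (D E : MvPolynomial (Fin r) ℤ)
    (hdis : ∀ (t : Fin r → ℂ), aeval t D = 0 → aeval t E ≠ 0 →
      ∀ I : Finset ι, I.card = m + 1 → ∀ y : τ → ℂ,
      (∀ i, eval₂ (evM K t) y (G i) = 0) →
      (∀ i ∈ I, eval₂ (evM K t) y (F i) = 0) → y = 0) :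
    ∃ W : Set k, W.Finite ∧ ∀ V : ValuationSubring ℂ, (∀ z ∈ W, algebraMap k ℂ z ∈ V) →
      ∀ t : Fin r → ℂ, (∀ j, t j ∈ V) → V.valuation (aeval t D) < 1 →
      V.valuation (aeval t E) = 1 →
      ∀ y : τ → ℂ, y ≠ 0 → (∀ i, eval₂ (evM K t) y (G i) = 0) →
        ∃ c : ℂ, c ≠ 0 ∧ (∀ i, eval₂ (evM K t) (c • y) (F' i) ∈ V) ∧
          ∀ I : Finset ι, I.card = m + 1 → ∃ i ∈ I,
            V.valuation (eval₂ (evM K t) (c • y) (F i)) = 1 := by
  classical
  have := Fintype.ofFinite κ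
  have hcert := fun (I : {I : Finset ι // I.card = m + 1}) (j : τ) =>
    certP (k := k) (fun i => flat k (G i))
      (fun b : Option I.1 => Option.elim b (ipol k D)
        (fun i : I.1 => flat k (F i)))
      (ipol k E * X (Sum.inr j)) (by
        intro z hG hF
        obtain ⟨t, y, rfl⟩ : ∃ t y, z = Sum.elim t y :=
          ⟨fun a => z (Sum.inl a), fun a => z (Sum.inr a), by
            funext a
            rcases a with a | a <;> rfl⟩
        rw [map_mul, aeval_X, Sum.elim_inr, aeval_ipol]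
        by_cases hE : aeval t E = 0
        · rw [hE, zero_mul]
        · have hD : aeval t D = 0 := by
            have h1 := hF none
            simp only [Option.elim_none] at h1
            rwa [aeval_ipol] at h1
          have h2 := hdis t hD hE I.1 I.2 y (fun i => by
            have h3 := hG i
            rwa [aeval_flat] at h3) (fun i hi => by
            have h3 := hF (some ⟨i, hi⟩)
            simp only [Option.elim_some] at h3
            rwa [aeval_flat] at h3)
          rw [h2, Pi.zero_apply, mul_zero])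
  choose M' U hU using hcert
  let W : Set k := (⋃ q : {I : Finset ι // I.card = m + 1} × τ,
      ⋃ b : Option q.1.1, coefsP (U q.1 q.2 b)) ∪
    ((⋃ i, coefsP (flat k (F i))) ∪ (⋃ i, coefsP (flat k (F' i))))
  have hWfin : W.Finite := by
    refine Set.Finite.union (Set.finite_iUnion fun q => Set.finite_iUnion fun b =>
      coefsP_finite _) (Set.Finite.union (Set.finite_iUnion fun i => coefsP_finite _)
      (Set.finite_iUnion fun i => coefsP_finite _))
  refine ⟨W, hWfin, fun V hW => ?_⟩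
  intro t htV hDl hEl y hy0 hyG
  have hUV : ∀ I j b, ∀ u ∈ (U I j b).support, algebraMap k ℂ ((U I j b).coeff u) ∈ V := by
    intro I j b u hu
    exact hW _ (Or.inl (Set.mem_iUnion.2 ⟨(I, j), Set.mem_iUnion.2 ⟨b, ⟨u, hu, rfl⟩⟩⟩))
  have hmem : ∀ z : τ → ℂ, (∀ j, z j ∈ V) → ∀ j : Fin r ⊕ τ, Sum.elim t z j ∈ V := by
    intro z hz j
    rcases j with j | j
    · exact htV j
    · exact hz j
  have hFV : ∀ (z : τ → ℂ), (∀ j, z j ∈ V) → ∀ i, eval₂ (evM K t) z (F i) ∈ V := by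
    intro z hz i
    rw [← aeval_flat (k := k)]
    exact aeval_mem V _ (fun u hu => hW _ (Or.inr (Or.inl (Set.mem_iUnion.2 ⟨i, ⟨u, hu, rfl⟩⟩))))
      (hmem z hz)
  have hF'V : ∀ (z : τ → ℂ), (∀ j, z j ∈ V) → ∀ i, eval₂ (evM K t) z (F' i) ∈ V := by
    intro z hz i
    rw [← aeval_flat (k := k)]
    exact aeval_mem V _ (fun u hu => hW _ (Or.inr (Or.inr (Set.mem_iUnion.2 ⟨i, ⟨u, hu, rfl⟩⟩))))
      (hmem z hz)
  set v := V.valuation with hv
  have hne : (Finset.univ : Finset τ).Nonempty := by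
    by_contra h
    rw [Finset.not_nonempty_iff_eq_empty, Finset.univ_eq_empty_iff] at h
    exact hy0 (funext fun j => (h.false j).elim)
  obtain ⟨j0, -, hj0⟩ := Finset.exists_max_image Finset.univ (fun j => v (y j)) hne
  have hyj0 : y j0 ≠ 0 := by
    intro h
    apply hy0
    funext j
    have h1 := hj0 j (Finset.mem_univ j)
    simp only [h, map_zero, le_zero_iff] at h1
    exact (map_eq_zero v).1 h1
  set z := (y j0)⁻¹ • y with hz
  have hzV : ∀ j, z j ∈ V := by
    intro j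
    rw [← ValuationSubring.valuation_le_one_iff, hz, Pi.smul_apply, smul_eq_mul, map_mul, map_inv₀]
    have h1 := hj0 j (Finset.mem_univ j)
    have h2 : v (y j0) ≠ 0 := (map_ne_zero v).2 hyj0
    calc (v (y j0))⁻¹ * v (y j) ≤ (v (y j0))⁻¹ * v (y j0) := mul_le_mul_right h1 _
      _ = 1 := inv_mul_cancel₀ h2
  have hzG : ∀ i, eval₂ (evM K t) z (G i) = 0 := by
    intro i
    obtain ⟨e, he⟩ := hhom i
    rw [hz, ev_smul t he, hyG i, mul_zero]
  refine ⟨(y j0)⁻¹, inv_ne_zero hyj0, fun i => hF'V z hzV i, ?_⟩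
  intro I hI
  by_contra hcon
  push Not at hcon
  have hlt : ∀ i ∈ I, v (eval₂ (evM K t) z (F i)) < 1 := by
    intro i hi
    refine lt_of_le_of_ne ?_ (hcon i hi)
    rw [ValuationSubring.valuation_le_one_iff]
    exact hFV z hzV i
  have h1 := hU ⟨I, hI⟩ j0 (Sum.elim t z) (fun i => by rw [aeval_flat]; exact hzG i)
  have h2 : z j0 = 1 := by
    rw [hz, Pi.smul_apply, smul_eq_mul, inv_mul_cancel₀ hyj0]
  rw [map_mul, aeval_X, Sum.elim_inr, aeval_ipol, h2, mul_one] at h1
  have h3 : v (∑ b : Option I, aeval (Sum.elim t z) (U ⟨I, hI⟩ j0 b) *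
      aeval (Sum.elim t z) (Option.elim b (ipol k D)
        (fun i : I => flat k (F i)))) < 1 := by
    refine Valuation.map_sum_lt _ one_ne_zero fun b _ => ?_
    rw [map_mul]
    refine (mul_le_of_le_one_left' ((ValuationSubring.valuation_le_one_iff _ _).2
      (aeval_mem V _ (hUV ⟨I, hI⟩ j0 b) (hmem z hzV)))).trans_lt ?_
    rcases b with _ | i
    · simp only [Option.elim_none]
      rw [aeval_ipol]
      exact hDl
    · simp only [Option.elim_some]
      rw [aeval_flat]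
      exact hlt i i.2
  rw [← h1, map_pow, hEl, one_pow] at h3
  exact lt_irrefl _ h3

/-- The data at the places near to the degenerate members. -/
theorem nearD [IsAlgClosed k] {κ : Type} [Finite κ] {N n m : ℕ}
    (G : κ → MvPolynomial (Fin (N + 1)) (MvPolynomial (Fin r) K))
    (hG : ∀ i, ∃ e, (G i).IsHomogeneous e)
    (A B : Fin n → MvPolynomial (Fin (N + 1)) (MvPolynomial (Fin r) K)) (d : Fin n → ℕ)
    (hA : ∀ i, (A i).IsHomogeneous (d i)) (hB : ∀ i, (B i).IsHomogeneous (d i))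
    (c : Fin n → MvPolynomial (Fin r) K)
    (D E : MvPolynomial (Fin r) ℤ) (b : Fin n → MvPolynomial (Fin r) K)
    (e : Fin n → ℕ)
    (hc : ∀ i, c i = MvPolynomial.map (Int.castRingHom K) D ^ e i * b i)
    (hdis : ∀ (t : Fin r → ℂ), aeval t D = 0 → aeval t E ≠ 0 →
      (∀ I : Finset (Fin n), I.card = m + 1 → ∀ y : Fin (N + 1) → ℂ, y ≠ 0 →
      (∀ i, eval₂ (evM K t) y (G i) = 0) →
      ∃ i ∈ I, eval₂ (evM K t) y (B i) ≠ 0 ∧ (0 < e i → eval₂ (evM K t) y (A i) ≠ 0)) ∧
      ∀ i, evM K t (b i) ≠ 0) :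
    ∃ W : Set k, W.Finite ∧ ∀ V : ValuationSubring ℂ, (∀ z ∈ W, algebraMap k ℂ z ∈ V) →
      ∀ t : Fin r → ℂ, (∀ j, t j ∈ V) → V.valuation (aeval t D) < 1 →
      V.valuation (aeval t E) = 1 →
      ∀ (x : Fin n → ℂ) (y : Fin (N + 1) → ℂ), y ≠ 0 → (∀ i, eval₂ (evM K t) y (G i) = 0) →
      (∀ i, evM K t (c i) * eval₂ (evM K t) y (B i) * x i = eval₂ (evM K t) y (A i)) →
      ∃ E' : Finset (Fin n), E'.card ≤ m ∧ ∀ i, i ∉ E' →
        (0 < e i → V.valuation (x i) * V.valuation (aeval t D) ^ e i = 1) ∧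
        (e i = 0 → V.valuation (x i) ≤ 1) := by
  classical
  obtain ⟨W1, hW1, h1⟩ := goodW (k := k) (m := m) G hG
    (fun i => if 0 < e i then A i * B i else B i) (fun i : Fin n ⊕ Fin n => Sum.elim A B i) D E
    (fun t hD hE I hI y hyG hyF => by
      by_contra hy0
      obtain ⟨i, hi, h2, h3⟩ := (hdis t hD hE).1 I hI y hy0 hyG
      have h4 := hyF i hi
      by_cases h0 : 0 < e i
      · rw [if_pos h0, eval₂_mul] at h4
        exact mul_ne_zero (h3 h0) h2 h4
      · rw [if_neg h0] at h4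
        exact h2 h4)
  have h2 := fun i => unitP (k := k) D E (b i) (fun t hD hE => (hdis t hD hE).2 i)
  choose Wu hWu hu using h2
  refine ⟨W1 ∪ ⋃ i, Wu i, hW1.union (Set.finite_iUnion fun i => hWu i), ?_⟩
  intro V hV t htV hDl hEl x y hy0 hyG hxy
  obtain ⟨a, ha0, hAB, hI⟩ := h1 V (fun z hz => hV z (Or.inl hz)) t htV hDl hEl y hy0 hyG
  refine bad_set V e (fun i => eval₂ (evM K t) (a • y) (A i))
    (fun i => eval₂ (evM K t) (a • y) (B i)) (fun i => evM K t (c i)) x _
    (fun i => (ValuationSubring.valuation_le_one_iff _ _).2 (hAB (Sum.inl i)))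
    (fun i => (ValuationSubring.valuation_le_one_iff _ _).2 (hAB (Sum.inr i))) (fun I hIc => ?_)
    (fun i => ?_) (fun i => ?_)
  · obtain ⟨i, hi, h1⟩ := hI I hIc
    refine ⟨i, hi, ?_⟩
    by_cases h0 : 0 < e i
    · rw [if_pos h0, eval₂_mul] at h1
      rw [if_pos h0]
      exact h1
    · rw [if_neg h0] at h1 ⊢
      exact h1
  · rw [hc i, map_mul, map_pow, evM_int, map_mul, map_pow,
      hu i V (fun z hz => hV z (Or.inr (Set.mem_iUnion.2 ⟨i, hz⟩))) t htV hDl hEl, mul_one]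
  · show evM K t (c i) * eval₂ (evM K t) (a • y) (B i) * x i = eval₂ (evM K t) (a • y) (A i)
    rw [ev_smul t (hA i), ev_smul t (hB i), ← hxy i]
    ring

end near

/-- The points of the member `X_t`: `c_i (t) x_i = A_i (y) / B_i (y)` for a point `y` of the projective
algebraic set `B_t` defined by the forms `G k`; `f` is the specialization of the coefficients. -/
def image {R : Type} [CommRing R] (f : R →+* ℂ) {N n : ℕ} {κ : Type}
    (G : κ → MvPolynomial (Fin (N + 1)) R) (A B : Fin n → MvPolynomial (Fin (N + 1)) R)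
    (c : Fin n → R) : Set (Fin n → ℂ) :=
  {x | ∃ y : Fin (N + 1) → ℂ, y ≠ 0 ∧ (∀ k, eval₂ f y (G k) = 0) ∧
    ∀ i, f (c i) * eval₂ f y (B i) * x i = eval₂ f y (A i)}

/-- Families with several parameters: the members with integral parameters which are near to all the
hypersurfaces at suitable primes. -/
theorem multiP (K : Subfield ℂ) [Countable K] (κ : Type) [Finite κ] (r N n m L : ℕ)
    (G : κ → MvPolynomial (Fin (N + 1)) (MvPolynomial (Fin r) K))
    (hG : ∀ k, ∃ e, (G k).IsHomogeneous e)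
    (A B : Fin n → MvPolynomial (Fin (N + 1)) (MvPolynomial (Fin r) K)) (δ : Fin n → ℕ)
    (hA : ∀ i, (A i).IsHomogeneous (δ i)) (hB : ∀ i, (B i).IsHomogeneous (δ i))
    (c : Fin n → MvPolynomial (Fin r) K)
    (D E : Fin L → MvPolynomial (Fin r) ℤ) (b : Fin L → Fin n → MvPolynomial (Fin r) K)
    (e : Fin L → Fin n → ℕ) (he : IndPos 1 e) (hsp : Spread m e)
    (hc : ∀ l i, c i = MvPolynomial.map (Int.castRingHom K) (D l) ^ e l i * b l i)
    (hpos : ∀ l (t : Fin r → ℂ), aeval t (D l) = 0 → aeval t (E l) ≠ 0 →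
      (∀ I : Finset (Fin n), I.card = m + 1 → ∀ y : Fin (N + 1) → ℂ, y ≠ 0 →
        (∀ i, eval₂ (evM K t) y (G i) = 0) →
        ∃ i ∈ I, eval₂ (evM K t) y (B i) ≠ 0 ∧ (0 < e l i → eval₂ (evM K t) y (A i) ≠ 0)) ∧
      ∀ i, evM K t (b l i) ≠ 0) (Γ : Finset ℂ)
    (hΓ : ∀ γ ∈ Γ, γ ∈ K) :
    ∃ Q : ℕ, ∀ t : Fin r → ℤ,
      (∀ l, ∃ p : ℕ, p.Prime ∧ Q < p ∧ (p : ℤ) ∣ eval t (D l) ∧ ¬ (p : ℤ) ∣ eval t (E l)) →
      NoAtypical (algebraMap (Algebra.adjoin ℤ (Γ : Set ℂ)) ℂ) K m
        (image (evM K fun j => (t j : ℂ)) G A B c) := by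
  classical
  let k := algebraicClosure K ℂ
  have hcl : IsAlgClosure K k := inferInstance
  have hac : IsAlgClosed k := hcl.isAlgClosed
  let Γ' : Set k := (fun γ : Γ => algebraMap K k ⟨γ, hΓ γ γ.2⟩) '' Set.univ
  have hΓ' : algebraMap k ℂ '' Γ' = (Γ : Set ℂ) := by
    ext z
    constructor
    · rintro ⟨_, ⟨g, -, rfl⟩, rfl⟩
      exact g.2
    · intro hz
      exact ⟨_, ⟨⟨z, hz⟩, trivial, rfl⟩, rfl⟩
  choose Wl hWl hnear using fun l => nearD (K := K) (k := k) (m := m) G hG A B δ hA hB c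
    (D l) (E l) (b l) (e l) (hc l) (hpos l)
  let W : Set k := (⋃ l, Wl l) ∪ Γ'
  have hW : W.Finite := (Set.finite_iUnion fun l => hWl l).union (Set.toFinite _)
  have := hW.to_subtype
  obtain ⟨Q, hQ⟩ := Pool.Agent.W466.ZC.exists_val' (fun z : W => (z : k))
  refine ⟨Q, fun t ht => noAtypical_pt _ K _ ?_⟩
  obtain ⟨tc, htc⟩ : ∃ tc : Fin r → ℂ, tc = fun j => (t j : ℂ) := ⟨_, rfl⟩
  rw [← htc]
  rintro r' Z x ⟨⟨y, hy0, hyG, hxy⟩, hxZ⟩ S hS
  have hevD : ∀ P : MvPolynomial (Fin r) ℤ, aeval tc P = ((eval t P : ℤ) : ℂ) := fun P => by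
    rw [htc, aeval_int]
  have hSk : AlgebraicIndependent k (fun i : S => x i) := hS.extendScalars k
  choose p hp hpQ hpD hpE using ht
  choose V hV1 hVW hVx using fun l => hQ (p l) (hp l) (hpQ l) _ _ hSk
  have hVp : ∀ l, (V l).valuation ((p l : ℕ) : ℂ) < 1 := fun l => by
    have h1 := hV1 l
    rwa [ValuationSubring.mem_nonunits_iff] at h1
  have hVD : ∀ l, (V l).valuation (aeval tc (D l)) < 1 := fun l => by
    rw [hevD]
    exact v_int_lt (hVp l) (hpD l)
  have hVE : ∀ l, (V l).valuation (aeval tc (E l)) = 1 := fun l => by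
    rw [hevD]
    exact v_int_one (hp l) (hVp l) (hpE l)
  have htV : ∀ l j, tc j ∈ V l := fun l j => by
    rw [htc]
    exact intCast_mem _ _
  have hVW' : ∀ l, ∀ z ∈ W, algebraMap k ℂ z ∈ V l := fun l z hz => hVW l ⟨z, hz⟩
  have h1 : ∀ i, Z.cls i = none →
      IsIntegral (Algebra.adjoin ℤ (algebraMap k ℂ '' Γ')) (x i) := by
    intro i hi
    obtain ⟨z, hz⟩ := hxZ
    rw [hΓ', (hz i).1 hi]
    rcases Z.allowed i with ⟨τ, hτ, hc⟩ | h
    · rw [hc]
      exact (singular_modulus_integral τ hτ).tower_top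
    · exact h
  refine coreP (m := m) e he hsp
    Z.cls (fun i => (Z.mat i).det.toNat) x
    (fun i => by
      have := Z.det_pos i
      omega)
    (fun i hi => alg_of_int Γ' (h1 i hi)) ?_
    S hSk V
    (fun l => (V l).valuation (aeval tc (D l))) hVD
    (fun l i hi => v_le_of_int Γ' (V l) (fun z hz => hVW' l z (Or.inr hz)) (h1 i hi)) hVx
    (fun l => hnear l (V l) (fun z hz => hVW' l z (Or.inl (Set.mem_iUnion.2 ⟨l, hz⟩))) tc (htV l)
      (hVD l) (hVE l) x y hy0 hyG hxy)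
  intro i j l hi hj
  have h5 := rel_of_locus Z hxZ i j l hi hj
  rw [Int.toNat_mul (Z.det_pos i).le (Z.det_pos j).le] at h5
  exact h5

end Pool.Agent.Q170.PD
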