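import Pool.Agent.Q170.PD.FG

/-!
Families with one parameter of subsets of `Y(1)^n` with partial degenerations: the members with
transcendental parameters (helper file; adapted from `Pool.Agent.Q170.BX.transB`).
-/

set_option autoImplicit false

namespace Pool.Agent.Q170.PD

open H294ZP UpperHalfPlane MvPolynomial Pool.Agent.W282.ZP
open Pool.Agent.Q170.RG (order int_up)
open Pool.Agent.Q170.BX (noAtypical_pt)
open Pool.Agent.Y152.RP.Fam (SpecialVariety SpecialVariety.locus NoAtypical evalAt rel_of_locus)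

/-- From an algebraically closed field to all fields with the same kernel. -/
theorem general_transfer {Λ : Type} [CommRing Λ] {κ : Type} {N n m : ℕ}
    (G : κ → MvPolynomial (Fin (N + 1)) Λ) (A B : Fin n → MvPolynomial (Fin (N + 1)) Λ)
    (e : Fin n → ℕ) {F₀ : Type} [Field F₀] [IsAlgClosed F₀] (red : Λ →+* F₀)
    (h : ∀ I : Finset (Fin n), I.card = m + 1 → ∀ y : Fin (N + 1) → F₀, y ≠ 0 →
      (∀ k, eval₂ red y (G k) = 0) →
      ∃ i ∈ I, eval₂ red y (B i) ≠ 0 ∧ (0 < e i → eval₂ red y (A i) ≠ 0))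
    (F : Type) [Field F] (φ : Λ →+* F) (hφ : RingHom.ker φ = RingHom.ker red)
    (I : Finset (Fin n)) (hI : I.card = m + 1) (y : Fin (N + 1) → F) (hy0 : y ≠ 0)
    (hyG : ∀ k, eval₂ φ y (G k) = 0) :
    ∃ i ∈ I, eval₂ φ y (B i) ≠ 0 ∧ (0 < e i → eval₂ φ y (A i) ≠ 0) := by
  classical
  by_contra hcon
  push Not at hcon
  apply hy0
  refine TH526.ZL.transfer
    (fun b : κ ⊕ I => Sum.elim (fun k => G k) (fun i : I => W0 (e i) (A i) (B i)) b) red
    ?_ φ hφ y ?_
  · intro y'' hy''
    by_contra h0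
    obtain ⟨i, hi, h1⟩ := h I hI y'' h0 (fun k => hy'' (Sum.inl k))
    exact (W0_ne _ _ _ _ _).2 h1 (hy'' (Sum.inr ⟨i, hi⟩))
  · rintro (k | i)
    · exact hyG k
    · simp only [Sum.elim_inr]
      by_contra h0
      obtain ⟨h1, h2⟩ := (W0_ne φ _ _ _ _).1 h0
      obtain ⟨h3, h4⟩ := hcon i i.2 h1
      exact h2 h3 h4

/-- The members with transcendental parameters. -/
theorem transP (K : Subfield ℂ) (κ : Type) (N n m L : ℕ)
    (G : κ → MvPolynomial (Fin (N + 1)) (Polynomial K)) (hG : ∀ l, ∃ e, (G l).IsHomogeneous e)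
    (A B : Fin n → MvPolynomial (Fin (N + 1)) (Polynomial K)) (δ : Fin n → ℕ)
    (hA : ∀ i, (A i).IsHomogeneous (δ i)) (hB : ∀ i, (B i).IsHomogeneous (δ i))
    (c : Fin n → Polynomial K) (hc : ∀ i, c i ≠ 0)
    (α : Fin L → ℂ) (hα : ∀ l, IsAlgebraic K (α l))
    (hind : IndPos 1 (fun l i => order (c i) (α l))) (hsp : Spread m (fun l i => order (c i) (α l)))
    (hpos : ∀ l, PosAt m G A B c (α l))
    (Γ : Finset ℂ) (hΓ : ∀ γ ∈ Γ, IsAlgebraic K γ) (t : ℂ) (ht : Transcendental K t)
    (K' : Subfield ℂ) [Countable K'] (hKK' : K ≤ K') (htK' : t ∈ K') :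
    NoAtypical (algebraMap (Algebra.adjoin ℤ (Γ : Set ℂ)) ℂ) K' m
      (image (evalAt K t) G A B c) := by
  classical
  let kk := algebraicClosure K ℂ
  have hcl : IsAlgClosure K kk := inferInstance
  have hac : IsAlgClosed kk := hcl.isAlgClosed
  have htk : Transcendental kk t := ht.extendScalars kk
  let φ : Polynomial K →+* Polynomial kk := Polynomial.mapRingHom (algebraMap K kk)
  have hφ : Function.Injective φ := Polynomial.map_injective _ (algebraMap K kk).injective
  let ev : Polynomial kk →+* ℂ := (Polynomial.aeval t : Polynomial kk →ₐ[kk] ℂ).toRingHom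
  let i1 : Algebra (Polynomial kk) ℂ := ev.toAlgebra
  have hinj : Function.Injective (algebraMap (Polynomial kk) ℂ) :=
    transcendental_iff_injective.1 htk
  have hevφ : ∀ c : Polynomial K, algebraMap (Polynomial kk) ℂ (φ c) = evalAt K t c := by
    intro c
    change Polynomial.aeval t ((c.map (algebraMap K kk))) = Polynomial.aeval t c
    rw [Polynomial.aeval_map_algebraMap]
  have hevφ' : (algebraMap (Polynomial kk) ℂ).comp φ = evalAt K t := RingHom.ext hevφ
  have hmem : ∀ z : ℂ, IsAlgebraic K z → ∃ z' : kk, algebraMap kk ℂ z' = z := fun z hz =>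
    ⟨⟨z, mem_algebraicClosure_iff'.2 hz.isIntegral⟩, rfl⟩
  choose α' hα' using fun l => hmem (α l) (hα l)
  have hmult : ∀ l (c : Polynomial K), (φ c).rootMultiplicity (α' l) = order c (α l) := by
    intro l c
    have h1 := Polynomial.eq_rootMultiplicity_map (p := φ c) (f := algebraMap kk ℂ)
      (algebraMap kk ℂ).injective (α' l)
    rw [h1, hα']
    simp only [φ, order, Polynomial.coe_mapRingHom, Polynomial.map_map]
    rfl
  have hintΓ : ∀ z, (algebraMap (Algebra.adjoin ℤ (Γ : Set ℂ)) ℂ).IsIntegralElem z →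
      IsIntegral (Polynomial kk) z := by
    intro z hz
    refine int_up hinj (Γ : Set ℂ) (fun g hg => ?_) hz
    obtain ⟨g', hg'⟩ := hmem g (hΓ g hg)
    refine ⟨Polynomial.C g', ?_⟩
    change Polynomial.aeval t (Polynomial.C g') = g
    rw [Polynomial.aeval_C, hg']
  -- the polynomials in the parameter as elements of the closure of `K'`
  let k' := algebraicClosure K' ℂ
  have hev' : ∀ a : Polynomial kk, ev a ∈ k'.toSubfield := by
    intro a
    change Polynomial.aeval t a ∈ k'.toSubfield
    rw [Polynomial.aeval_eq_sum_range]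
    refine sum_mem fun i _ => ?_
    rw [Algebra.smul_def]
    refine mul_mem ?_ (pow_mem ?_ i)
    · have h1 : IsAlgebraic K ((algebraMap kk ℂ) (a.coeff i)) :=
        (Algebra.IsAlgebraic.isAlgebraic (R := K) (a.coeff i)).algebraMap
      let i2 : Algebra K K' := (Subfield.inclusion hKK').toAlgebra
      have hst : IsScalarTower K K' ℂ := IsScalarTower.of_algebraMap_eq fun _ => rfl
      have h2 : IsAlgebraic K' ((algebraMap kk ℂ) (a.coeff i)) := h1.tower_top K'
      exact mem_algebraicClosure_iff'.2 h2.isIntegral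
    · exact mem_algebraicClosure_iff'.2 (isIntegral_algebraMap (R := K') (x := ⟨t, htK'⟩))
  let fΛ : Polynomial kk →+* k' := ev.codRestrict k'.toSubfield hev'
  let i3 : Algebra (Polynomial kk) k' := fΛ.toAlgebra
  have hst3 : IsScalarTower (Polynomial kk) k' ℂ := IsScalarTower.of_algebraMap_eq fun _ => rfl
  have hinj3 : Function.Injective (algebraMap (Polynomial kk) k') := by
    intro a b h
    apply hinj
    exact congrArg (algebraMap k' ℂ) h
  -- the reduction
  let red : ∀ l, Polynomial kk →+* ℂ := fun l => (algebraMap kk ℂ).comp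
    (Polynomial.evalRingHom (α' l))
  have hredφ : ∀ l, (red l).comp φ = evalAt K (α l) := by
    intro l
    refine Polynomial.ringHom_ext (fun a => ?_) ?_
    · simp only [red, φ, evalAt, RingHom.comp_apply, Polynomial.coe_mapRingHom, Polynomial.map_C,
        Polynomial.coe_evalRingHom, Polynomial.eval_C, AlgHom.toRingHom_eq_coe, RingHom.coe_coe,
        Polynomial.aeval_C]
      rfl
    · simp only [red, φ, evalAt, RingHom.comp_apply, Polynomial.coe_mapRingHom, Polynomial.map_X,
        Polynomial.coe_evalRingHom, Polynomial.eval_X, AlgHom.toRingHom_eq_coe, RingHom.coe_coe,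
        Polynomial.aeval_X]
      exact hα' l
  have hredv : ∀ l (P : MvPolynomial (Fin (N + 1)) (Polynomial K)) (y : Fin (N + 1) → ℂ),
      eval₂ (red l) y (MvPolynomial.map φ P) = eval₂ (evalAt K (α l)) y P := by
    intro l P y
    rw [eval₂_map, hredφ]
  refine noAtypical_pt _ K' _ ?_
  rintro r Z x ⟨⟨y, hy0, hyG, hxy⟩, hxZ⟩ S hS
  have hSk : AlgebraicIndependent k' (fun i : S => x i) := hS.extendScalars k'
  have hSΛ : AlgebraicIndependent (Polynomial kk) (fun i : S => x i) :=
    hSk.restrictScalars hinj3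
  have hval : ∀ (P : MvPolynomial (Fin (N + 1)) (Polynomial K)) (y : Fin (N + 1) → ℂ),
      aeval y (MvPolynomial.map φ P) = eval₂ (evalAt K t) y P := by
    intro P y
    rw [aeval_def, eval₂_map, hevφ']
  refine criterionP (Λ := Polynomial kk) (m := m) (L := L)
    (fun i => MvPolynomial.map φ (G i)) (fun i => by
      obtain ⟨e, he⟩ := hG i
      exact ⟨e, he.map φ⟩) (fun i => MvPolynomial.map φ (A i)) (fun i => MvPolynomial.map φ (B i)) δ
    (fun i => (hA i).map φ) (fun i => (hB i).map φ)
    (fun i => φ (c i)) (fun l => RingHom.ker (red l))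
    (fun l => RingHom.ker_isPrime _) (fun l i => order (c i) (α l)) hind hsp ?_
    (fun l => Polynomial.X - Polynomial.C (α' l)) ?_ ?_ Z.cls
    (fun i => (Z.mat i).det.toNat) x ?_ ?_
    (fun i j l hi hj => by
      have h5 := rel_of_locus Z hxZ i j l hi hj
      rw [Int.toNat_mul (Z.det_pos i).le (Z.det_pos j).le] at h5
      exact h5) y hy0 ?_ ?_ S hSΛ
  · intro l F _ φ₁ hker I hI y' hy0' hyG'
    refine general_transfer (m := m) _ _ _ (fun i => order (c i) (α l)) (red l) ?_ F φ₁ hker I hI y'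
      hy0' hyG'
    intro I' hI' y'' hy'' hG''
    simp only [hredv] at hG'' ⊢
    exact hpos l I' hI' y'' hy'' hG''
  · intro l
    rw [RingHom.mem_ker]
    simp only [red, RingHom.comp_apply, Polynomial.coe_evalRingHom, Polynomial.eval_sub,
      Polynomial.eval_X, Polynomial.eval_C, sub_self, map_zero]
  · intro l i
    obtain ⟨b, hb1, hb2⟩ := Polynomial.exists_eq_pow_rootMultiplicity_mul_and_not_dvd
      (φ (c i)) ((map_ne_zero_iff φ hφ).2 (hc i)) (α' l)
    refine ⟨1, b, fun h3 => ?_, fun h3 => ?_, ?_⟩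
    · rw [RingHom.mem_ker, map_one] at h3
      exact one_ne_zero h3
    · apply hb2
      rw [Polynomial.dvd_iff_isRoot]
      rw [RingHom.mem_ker] at h3
      exact (map_eq_zero (algebraMap kk ℂ)).1 h3
    · rw [hmult] at hb1
      rw [one_mul, hb1, mul_comm]
  · intro i
    have := Z.det_pos i
    omega
  · intro i hi
    obtain ⟨z, hz⟩ := hxZ
    have e3 : x i = Z.const i := (hz i).1 hi
    rw [e3]
    rcases Z.allowed i with ⟨τ, hτ, hc⟩ | h
    · rw [hc]
      exact (singular_modulus_integral τ hτ).tower_top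
    · exact hintΓ _ h
  · intro i
    rw [hval]
    exact hyG i
  · intro i
    rw [hval, hval, hevφ]
    exact hxy i

/-- choosing elements of `L` of the sets -/
theorem exists_choice {M L : ℕ} (D : Fin M → Finset ℂ)
    (h : ∀ I : Finset (Fin M), M + 1 ≤ I.card + L → 1 ≤ (I.biUnion D).card) :
    ∃ (f : Fin L → Fin M) (α : Fin L → ℂ), Function.Injective f ∧ ∀ l, α l ∈ D (f l) := by
  classical
  let Nn : Finset (Fin M) := Finset.univ.filter fun l => (D l).Nonempty
  have hN : L ≤ Nn.card := by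
    by_contra hcon
    push Not at hcon
    have h1 := h Nnᶜ (by
      rw [Finset.card_compl, Fintype.card_fin]
      omega)
    obtain ⟨z, hz⟩ := Finset.card_pos.1 h1
    obtain ⟨l, hl, hzl⟩ := Finset.mem_biUnion.1 hz
    rw [Finset.mem_compl] at hl
    exact hl (Finset.mem_filter.2 ⟨Finset.mem_univ _, ⟨z, hzl⟩⟩)
  obtain ⟨N', hN', hc⟩ := Finset.exists_subset_card_eq hN
  let f : Fin L → Fin M := fun l => N'.orderEmbOfFin hc l
  have hf : ∀ l, (D (f l)).Nonempty := fun l =>
    (Finset.mem_filter.1 (hN' (Finset.orderEmbOfFin_mem N' hc l))).2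
  choose α hα using hf
  exact ⟨f, α, (N'.orderEmbOfFin hc).injective, hα⟩

end Pool.Agent.Q170.PD
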